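import Mathlib

/-!
A regular CIS graph that is connected, well-covered and irreducible together with its
complement, but not vertex-transitive.
-/

namespace Pool.Agent.Results.MP_509871_co.NotTransitive

open SimpleGraph

/-- Every maximal clique meets every maximal stable set. -/
def IsCIS {V : Type} (G : SimpleGraph V) : Prop :=
  ∀ C S : Set V, Maximal G.IsClique C → Maximal G.IsIndepSet S → (C ∩ S).Nonempty

/-- All maximal stable sets have the same size. -/
def WellCovered {V : Type} (G : SimpleGraph V) : Prop :=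
  ∀ S T : Set V, Maximal G.IsIndepSet S → Maximal G.IsIndepSet T → S.ncard = T.ncard

/-- Distinct vertices have distinct neighbourhoods. -/
def IsIrreducible {V : Type} (G : SimpleGraph V) : Prop :=
  ∀ u v : V, u ≠ v → G.neighborSet u ≠ G.neighborSet v

/-- All vertices have the same degree. -/
def IsRegular {V : Type} (G : SimpleGraph V) : Prop :=
  ∃ k : ℕ, ∀ v, (G.neighborSet v).ncard = k

/-- The automorphism group is transitive on vertices. -/
def VertexTransitive {V : Type} (G : SimpleGraph V) : Prop :=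
  ∀ u v : V, ∃ e : G ≃g G, e u = v

/-! ### Maximal cliques -/

theorem maxCl_iff {V : Type} (G : SimpleGraph V) (C : Set V) :
    Maximal G.IsClique C ↔ G.IsClique C ∧ ∀ v, (∀ a ∈ C, v ≠ a → G.Adj v a) → v ∈ C := by
  constructor
  · rintro ⟨h1, h2⟩
    refine ⟨h1, fun v hv => ?_⟩
    have h3 : G.IsClique (insert v C) := by
      rintro a (rfl | ha) b (rfl | hb) hab
      · exact absurd rfl hab
      · exact hv b hb hab
      · exact (hv a ha (Ne.symm hab)).symm
      · exact h1 ha hb hab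
    exact h2 h3 (Set.subset_insert v C) (Set.mem_insert v C)
  · rintro ⟨h1, h2⟩
    refine ⟨h1, fun D hD hCD v hv => h2 v fun a ha hva => ?_⟩
    exact hD hv (hCD ha) hva

/-- The finite version. -/
def FinMax {V : Type} (G : SimpleGraph V) (s : Finset V) : Prop :=
  (∀ a ∈ s, ∀ b ∈ s, a ≠ b → G.Adj a b) ∧ ∀ v, (∀ a ∈ s, v ≠ a → G.Adj v a) → v ∈ s

instance {V : Type} [Fintype V] [DecidableEq V] (G : SimpleGraph V) [DecidableRel G.Adj]
    (s : Finset V) : Decidable (FinMax G s) := by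
  unfold FinMax; infer_instance

theorem finMax_of {V : Type} [Finite V] {G : SimpleGraph V} {C : Set V}
    (hC : Maximal G.IsClique C) : ∃ s : Finset V, (s : Set V) = C ∧ FinMax G s := by
  obtain ⟨s, hs⟩ := Set.Finite.exists_finset_coe (Set.toFinite C)
  rw [maxCl_iff] at hC
  refine ⟨s, hs, ?_, ?_⟩
  · intro a ha b hb hab
    exact hC.1 (hs ▸ ha) (hs ▸ hb) hab
  · intro v hv
    have := hC.2 v fun a ha hva => hv a (by rw [← hs] at ha; exact ha) hva
    rw [← hs] at this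
    exact this

/-- Degree, clique number and stability number of a well-behaved graph. -/
structure Good {V : Type} (G : SimpleGraph V) (k w a : ℕ) : Prop where
  deg : ∀ v, (G.neighborSet v).ncard = k
  cl : ∀ C, Maximal G.IsClique C → C.ncard = w
  st : ∀ S, Maximal Gᶜ.IsClique S → S.ncard = a
  cis : ∀ C S, Maximal G.IsClique C → Maximal Gᶜ.IsClique S → (C ∩ S).Nonempty

theorem good_of_fin {V : Type} [Fintype V] [DecidableEq V] (G : SimpleGraph V)
    [DecidableRel G.Adj] {k w a : ℕ}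
    (h1 : ∀ v, (Finset.univ.filter fun u => G.Adj v u).card = k)
    (h2 : ∀ s, FinMax G s → s.card = w) (h3 : ∀ s, FinMax Gᶜ s → s.card = a)
    (h4 : ∀ s, FinMax G s → ∀ t, FinMax Gᶜ t → ∃ v ∈ s, v ∈ t) : Good G k w a := by
  refine ⟨fun v => ?_, fun C hC => ?_, fun S hS => ?_, fun C S hC hS => ?_⟩
  · have : G.neighborSet v = ((Finset.univ.filter fun u => G.Adj v u : Finset V) : Set V) := by
      ext w; simp
    rw [this, Set.ncard_coe_finset, h1]
  · obtain ⟨s, rfl, hs⟩ := finMax_of hC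
    rw [Set.ncard_coe_finset, h2 s hs]
  · obtain ⟨s, rfl, hs⟩ := finMax_of hS
    rw [Set.ncard_coe_finset, h3 s hs]
  · obtain ⟨s, rfl, hs⟩ := finMax_of hC
    obtain ⟨t, rfl, ht⟩ := finMax_of hS
    obtain ⟨v, hv1, hv2⟩ := h4 s hs t ht
    exact ⟨v, hv1, hv2⟩

/-! ### Substitution -/

section sub

variable {V : Type} {W : V → Type}

/-- Substitution of the graphs `H a` for the vertices `a` of `G`. -/
def Sub (G : SimpleGraph V) (H : ∀ a, SimpleGraph (W a)) : SimpleGraph (Σ a, W a) where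
  Adj p q := G.Adj p.1 q.1 ∨ ∃ h : p.1 = q.1, (H q.1).Adj (h ▸ p.2) q.2
  symm := ⟨by
    rintro ⟨a, x⟩ ⟨b, y⟩ (h | ⟨h1, h2⟩)
    · exact Or.inl h.symm
    · simp only at h1
      subst h1
      exact Or.inr ⟨rfl, h2.symm⟩⟩
  loopless := ⟨by
    rintro ⟨a, x⟩ (h | ⟨h1, h2⟩)
    · exact G.loopless.irrefl _ h
    · exact (H a).loopless.irrefl _ h2⟩

variable {G : SimpleGraph V} {H : ∀ a, SimpleGraph (W a)}

theorem adj_same {a : V} {x y : W a} : (Sub G H).Adj ⟨a, x⟩ ⟨a, y⟩ ↔ (H a).Adj x y := by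
  constructor
  · rintro (h | ⟨h1, h2⟩)
    · exact absurd h (G.loopless.irrefl _)
    · exact h2
  · intro h
    exact Or.inr ⟨rfl, h⟩

theorem adj_ne {a b : V} (hab : a ≠ b) {x : W a} {y : W b} :
    (Sub G H).Adj ⟨a, x⟩ ⟨b, y⟩ ↔ G.Adj a b := by
  constructor
  · rintro (h | ⟨h1, h2⟩)
    · exact h
    · exact absurd h1 hab
  · intro h
    exact Or.inl h

theorem compl_sub : (Sub G H)ᶜ = Sub Gᶜ fun a => (H a)ᶜ := by
  ext ⟨a, x⟩ ⟨b, y⟩
  by_cases hab : a = b
  · subst hab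
    rw [adj_same, compl_adj, compl_adj, adj_same]
    refine and_congr_left fun _ => ?_
    simp
  · rw [adj_ne hab, compl_adj, compl_adj, adj_ne hab]
    refine and_congr_left fun _ => ?_
    simp [hab]

/-- Maximal cliques of a substitution. -/
theorem maxCl_sub [∀ a, Nonempty (W a)] {C : Set (Σ a, W a)}
    (hC : Maximal (Sub G H).IsClique C) :
    Maximal G.IsClique {a | ∃ x, (⟨a, x⟩ : Σ a, W a) ∈ C} ∧
    ∀ a, (∃ x, (⟨a, x⟩ : Σ a, W a) ∈ C) → Maximal (H a).IsClique {x | ⟨a, x⟩ ∈ C} := by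
  rw [maxCl_iff] at hC
  obtain ⟨h1, h2⟩ := hC
  constructor
  · rw [maxCl_iff]
    constructor
    · rintro a ⟨x, hx⟩ b ⟨y, hy⟩ hab
      exact (adj_ne hab).1 (h1 hx hy fun h => hab (congrArg Sigma.fst h))
    · intro b hb
      by_contra hno
      obtain ⟨y⟩ := (inferInstance : Nonempty (W b))
      refine hno ⟨y, h2 ⟨b, y⟩ ?_⟩
      rintro ⟨a, x⟩ hax -
      have hba : b ≠ a := by
        rintro rfl
        exact hno ⟨x, hax⟩
      exact (adj_ne hba).2 (hb a ⟨x, hax⟩ hba)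
  · rintro a ⟨x₀, hx₀⟩
    rw [maxCl_iff]
    constructor
    · intro x hx y hy hxy
      refine adj_same.1 (h1 hx hy fun h => hxy ?_)
      exact eq_of_heq (Sigma.mk.inj h).2
    · intro y hy
      refine h2 ⟨a, y⟩ ?_
      rintro ⟨b, x⟩ hbx hne
      by_cases hab : a = b
      · subst hab
        refine adj_same.2 (hy x hbx ?_)
        rintro rfl
        exact hne rfl
      · refine (adj_ne hab).2 ?_
        refine (adj_ne hab (x := x₀) (y := x)).1 (h1 hx₀ hbx fun h => hab (congrArg Sigma.fst h))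

theorem ncard_sigma [Fintype V] [∀ a, Finite (W a)] (C : Set (Σ a, W a)) :
    C.ncard = ∑ a, {x | (⟨a, x⟩ : Σ a, W a) ∈ C}.ncard := by
  classical
  have : ∀ a, Fintype (W a) := fun a => Fintype.ofFinite (W a)
  rw [Set.ncard_eq_toFinset_card']
  rw [Finset.card_eq_sum_card_fiberwise (f := Sigma.fst) (t := Finset.univ)
    (fun x _ => Finset.mem_coe.2 (Finset.mem_univ _))]
  refine Finset.sum_congr rfl fun a _ => ?_
  rw [Set.ncard_eq_toFinset_card']
  symm
  refine Finset.card_bij (fun x _ => (⟨a, x⟩ : Σ a, W a)) ?_ ?_ ?_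
  · intro x hx
    rw [Set.mem_toFinset, Set.mem_ofPred_eq] at hx
    exact Finset.mem_filter.2 ⟨Set.mem_toFinset.2 hx, rfl⟩
  · intro x _ y _ h
    exact eq_of_heq (Sigma.mk.inj h).2
  · rintro ⟨b, y⟩ hb
    simp only [Set.mem_toFinset, Finset.mem_filter] at hb
    obtain ⟨hb1, rfl⟩ := hb
    exact ⟨y, by simpa using hb1, rfl⟩

theorem cl_sub [Fintype V] [∀ a, Finite (W a)] [∀ a, Nonempty (W a)] {w : V → ℕ} {F : ℕ}
    (hH : ∀ a C, Maximal (H a).IsClique C → C.ncard = w a)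
    (hG : ∀ C : Finset V, Maximal G.IsClique (C : Set V) → ∑ a ∈ C, w a = F)
    {C : Set (Σ a, W a)} (hC : Maximal (Sub G H).IsClique C) : C.ncard = F := by
  classical
  obtain ⟨h1, h2⟩ := maxCl_sub hC
  obtain ⟨s, hs⟩ := Set.Finite.exists_finset_coe
    (Set.toFinite {a | ∃ x, (⟨a, x⟩ : Σ a, W a) ∈ C})
  rw [← hG s (by rw [hs]; exact h1), ncard_sigma,
    ← Finset.sum_subset (Finset.subset_univ s)]
  · refine Finset.sum_congr rfl fun a ha => hH a _ (h2 a ?_)
    have : a ∈ (s : Set V) := ha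
    rw [hs] at this
    exact this
  · intro a _ ha
    have h3 : ¬ ∃ x, (⟨a, x⟩ : Σ a, W a) ∈ C := by
      intro h
      apply ha
      have : a ∈ {a | ∃ x, (⟨a, x⟩ : Σ a, W a) ∈ C} := h
      rw [← hs] at this
      exact this
    push Not at h3
    have h4 : {x | (⟨a, x⟩ : Σ a, W a) ∈ C} = ∅ := by
      ext x
      simp only [Set.mem_ofPred_eq, Set.mem_empty_iff_false, iff_false]
      exact h3 x
    rw [h4, Set.ncard_empty]

theorem good_sub [Fintype V] [DecidableRel G.Adj] [∀ a, Fintype (W a)] [∀ a, Nonempty (W a)]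
    {k w α : V → ℕ}
    {K F A : ℕ} (hH : ∀ a, Good (H a) (k a) (w a) (α a))
    (hdeg : ∀ a, (∑ b, if G.Adj a b then Fintype.card (W b) else 0) + k a = K)
    (hcl : ∀ C : Finset V, Maximal G.IsClique (C : Set V) → ∑ a ∈ C, w a = F)
    (hst : ∀ C : Finset V, Maximal Gᶜ.IsClique (C : Set V) → ∑ a ∈ C, α a = A)
    (hcis : ∀ C S, Maximal G.IsClique C → Maximal Gᶜ.IsClique S → (C ∩ S).Nonempty) :
    Good (Sub G H) K F A := by
  classical
  refine ⟨?_, ?_, ?_, ?_⟩
  · rintro ⟨a, x⟩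
    rw [ncard_sigma, ← hdeg a, ← Finset.add_sum_erase Finset.univ _ (Finset.mem_univ a),
      ← Finset.add_sum_erase Finset.univ (fun b => if G.Adj a b then Fintype.card (W b) else 0)
        (Finset.mem_univ a), if_neg (G.loopless.irrefl a), zero_add, add_comm]
    congr 1
    · refine Finset.sum_congr rfl fun b hb => ?_
      have hab : a ≠ b := (Finset.ne_of_mem_erase hb).symm
      by_cases h : G.Adj a b
      · rw [if_pos h]
        have : {y | (⟨b, y⟩ : Σ a, W a) ∈ (Sub G H).neighborSet ⟨a, x⟩} = Set.univ := by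
          ext y
          simp only [Set.mem_ofPred_eq, mem_neighborSet, Set.mem_univ, iff_true]
          exact (adj_ne hab).2 h
        rw [this, Set.ncard_univ, Nat.card_eq_fintype_card]
      · rw [if_neg h]
        have : {y | (⟨b, y⟩ : Σ a, W a) ∈ (Sub G H).neighborSet ⟨a, x⟩} = ∅ := by
          ext y
          simp only [Set.mem_ofPred_eq, mem_neighborSet, Set.mem_empty_iff_false, iff_false]
          exact fun h' => h ((adj_ne hab).1 h')
        rw [this, Set.ncard_empty]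
    · rw [← (hH a).deg x]
      congr 1
      ext y
      simp only [Set.mem_ofPred_eq, mem_neighborSet]
      exact adj_same
  · intro C hC
    exact cl_sub (fun a => (hH a).cl) hcl hC
  · intro S hS
    rw [compl_sub] at hS
    exact cl_sub (fun a => (hH a).st) hst hS
  · intro C S hC hS
    rw [compl_sub] at hS
    obtain ⟨h1, h2⟩ := maxCl_sub hC
    obtain ⟨h3, h4⟩ := maxCl_sub hS
    obtain ⟨a, ha1, ha2⟩ := hcis _ _ h1 h3
    obtain ⟨x, hx1, hx2⟩ := (hH a).cis _ _ (h2 a ha1) (h4 a ha2)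
    exact ⟨⟨a, x⟩, hx1, hx2⟩

/-- Irreducibility of a substitution of irreducible graphs without isolated vertices. -/
theorem irred_sub (h1 : ∀ a, IsIrreducible (H a)) (h2 : ∀ a (x : W a), ∃ y, (H a).Adj x y) :
    IsIrreducible (Sub G H) := by
  rintro ⟨a, x⟩ ⟨b, y⟩ hne heq
  have hmem : ∀ p, (Sub G H).Adj ⟨a, x⟩ p ↔ (Sub G H).Adj ⟨b, y⟩ p := by
    intro p
    rw [← mem_neighborSet, heq, mem_neighborSet]
  by_cases hab : a = b
  · subst hab
    refine h1 a x y (fun h => hne (by rw [h])) ?_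
    ext z
    rw [mem_neighborSet, mem_neighborSet, ← adj_same (G := G), ← adj_same (G := G)]
    exact hmem ⟨a, z⟩
  · obtain ⟨z, hz⟩ := h2 a x
    have h3 := (adj_ne (Ne.symm hab)).1 ((hmem ⟨a, z⟩).1 (adj_same.2 hz))
    have h4 := (hmem ⟨b, y⟩).1 ((adj_ne hab).2 h3.symm)
    exact (Sub G H).loopless.irrefl _ h4

theorem noIso_sub (h2 : ∀ a (x : W a), ∃ y, (H a).Adj x y) :
    ∀ p : Σ a, W a, ∃ q, (Sub G H).Adj p q := by
  rintro ⟨a, x⟩
  obtain ⟨y, hy⟩ := h2 a x
  exact ⟨⟨a, y⟩, adj_same.2 hy⟩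

/-- Connectedness of a substitution into a connected graph without isolated vertices. -/
theorem conn_sub [∀ a, Nonempty (W a)] (hG : G.Connected) (hiso : ∀ a, ∃ b, G.Adj a b) :
    (Sub G H).Connected := by
  obtain ⟨a₀⟩ := hG.nonempty
  obtain ⟨x₀⟩ := (inferInstance : Nonempty (W a₀))
  rw [connected_iff]
  refine ⟨?_, ⟨⟨a₀, x₀⟩⟩⟩
  have step : ∀ (a b : V) (p : G.Walk a b) (x : W a),
      ∃ y : W b, (Sub G H).Reachable ⟨a, x⟩ ⟨b, y⟩ := by
    intro a b p
    induction p with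
    | nil => exact fun x => ⟨x, Reachable.refl _⟩
    | @cons a b c hadj p ih =>
      intro x
      obtain ⟨y⟩ := (inferInstance : Nonempty (W b))
      obtain ⟨z, hz⟩ := ih y
      exact ⟨z, (((adj_ne hadj.ne).2 hadj : (Sub G H).Adj ⟨a, x⟩ ⟨b, y⟩)).reachable.trans hz⟩
  rintro ⟨a, x⟩ ⟨b, y⟩
  obtain ⟨p⟩ := hG.preconnected a b
  obtain ⟨z, hz⟩ := step a b p x
  obtain ⟨c, hbc⟩ := hiso b
  obtain ⟨u⟩ := (inferInstance : Nonempty (W c))
  have h1 : (Sub G H).Adj ⟨b, z⟩ ⟨c, u⟩ := (adj_ne hbc.ne).2 hbc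
  have h2 : (Sub G H).Adj ⟨c, u⟩ ⟨b, y⟩ := (adj_ne hbc.ne').2 hbc.symm
  exact hz.trans (h1.reachable.trans h2.reachable)

end sub

/-! ### The building blocks -/

/-- The 3 by 3 rook graph. -/
def R3 : SimpleGraph (Fin 3 × Fin 3) where
  Adj u v := u ≠ v ∧ (u.1 = v.1 ∨ u.2 = v.2)
  symm := ⟨by
    rintro u v ⟨h1, h2⟩
    exact ⟨h1.symm, h2.imp Eq.symm Eq.symm⟩⟩
  loopless := ⟨fun _ h => h.1 rfl⟩

instance : DecidableRel R3.Adj := fun u v =>
  inferInstanceAs (Decidable (u ≠ v ∧ (u.1 = v.1 ∨ u.2 = v.2)))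

/-- The complete tripartite graph with parts of size two. -/
def K2 : SimpleGraph (Fin 3 × Fin 2) where
  Adj u v := u.1 ≠ v.1
  symm := ⟨fun _ _ h => Ne.symm h⟩
  loopless := ⟨fun _ h => h rfl⟩

instance : DecidableRel K2.Adj := fun u v => inferInstanceAs (Decidable (u.1 ≠ v.1))

set_option maxRecDepth 100000 in
theorem good_R3 : Good R3 4 3 3 :=
  good_of_fin R3 (by decide +kernel) (by decide +kernel) (by decide +kernel) (by decide +kernel)

set_option maxRecDepth 100000 in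
theorem good_K2 : Good K2 4 3 2 :=
  good_of_fin K2 (by decide +kernel) (by decide +kernel) (by decide +kernel) (by decide +kernel)

/-- The vertex types of the two parts. -/
def W0 : Bool → Type
  | true => Fin 3 × Fin 3
  | false => Fin 3 × Fin 2

instance : ∀ b, Fintype (W0 b)
  | true => inferInstanceAs (Fintype (Fin 3 × Fin 3))
  | false => inferInstanceAs (Fintype (Fin 3 × Fin 2))

instance : ∀ b, Nonempty (W0 b)
  | true => inferInstanceAs (Nonempty (Fin 3 × Fin 3))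
  | false => inferInstanceAs (Nonempty (Fin 3 × Fin 2))

/-- The two parts. -/
def H0 : ∀ b, SimpleGraph (W0 b)
  | true => R3
  | false => K2

/-- The disjoint union of `R3` and `K2`. -/
def D : SimpleGraph (Σ b, W0 b) := Sub (⊥ : SimpleGraph Bool) H0

/-- The 3 by 3 rook graph substituted for the vertices of `D`. -/
def E : SimpleGraph (Σ _ : (Σ b, W0 b), Fin 3 × Fin 3) := Sub D fun _ => R3

/-- The graph `E` substituted for the vertices of the 3 by 3 rook graph. -/
def X : SimpleGraph (Σ _ : Fin 3 × Fin 3, Σ _ : (Σ b, W0 b), Fin 3 × Fin 3) := Sub R3 fun _ => E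

theorem finMax_coe {V : Type} {G : SimpleGraph V} {s : Finset V}
    (h : Maximal G.IsClique (s : Set V)) : FinMax G s := by
  rw [maxCl_iff] at h
  exact ⟨fun a ha b hb hab => h.1 ha hb hab, fun v hv => h.2 v hv⟩

theorem cis_of_fin {V : Type} [Finite V] {G : SimpleGraph V}
    (h4 : ∀ s, FinMax G s → ∀ t, FinMax Gᶜ t → ∃ v ∈ s, v ∈ t) (C S : Set V)
    (hC : Maximal G.IsClique C) (hS : Maximal Gᶜ.IsClique S) : (C ∩ S).Nonempty := by
  obtain ⟨s, rfl, hs⟩ := finMax_of hC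
  obtain ⟨t, rfl, ht⟩ := finMax_of hS
  obtain ⟨v, hv1, hv2⟩ := h4 s hs t ht
  exact ⟨v, hv1, hv2⟩

theorem good_D : Good D 4 3 5 := by
  refine good_sub (k := fun _ => 4) (w := fun _ => 3) (α := fun b => if b then 3 else 2)
    ?_ ?_ ?_ ?_ ?_
  · rintro (_ | _)
    · exact good_K2
    · exact good_R3
  · intro a
    have : ∀ b, ¬ (⊥ : SimpleGraph Bool).Adj a b := fun b h => h
    simp [this]
  · intro C hC
    have key : ∀ s : Finset Bool, FinMax (⊥ : SimpleGraph Bool) s → ∑ _a ∈ s, 3 = 3 := by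
      decide +kernel
    exact key C (finMax_coe hC)
  · intro C hC
    have key : ∀ s : Finset Bool, FinMax (⊥ : SimpleGraph Bool)ᶜ s →
        (∑ a ∈ s, if a then 3 else 2) = 5 := by
      decide +kernel
    exact key C (finMax_coe hC)
  · exact cis_of_fin (by decide +kernel)

/-- Substituting one graph for all vertices. -/
theorem good_const {V W : Type} [Fintype V] [Fintype W] (hne : Nonempty W) {G : SimpleGraph V}
    {H : SimpleGraph W} {k w a k' w' a' : ℕ} (hG : Good G k w a) (hH : Good H k' w' a') :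
    Good (Sub G fun _ => H) (k * Fintype.card W + k') (w * w') (a * a') := by
  classical
  refine good_sub (W := fun _ => W) (k := fun _ => k') (w := fun _ => w') (α := fun _ => a')
    (fun _ => hH) ?_ ?_ ?_ hG.cis
  · intro v
    rw [← Finset.sum_filter, Finset.sum_const, smul_eq_mul, ← hG.deg v]
    congr 2
    rw [Set.ncard_eq_toFinset_card']
    congr 1
    ext u
    simp
  · intro C hC
    rw [Finset.sum_const, smul_eq_mul, ← hG.cl _ hC, Set.ncard_coe_finset]
  · intro C hC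
    rw [Finset.sum_const, smul_eq_mul, ← hG.st _ hC, Set.ncard_coe_finset]

theorem nonE : Nonempty (Σ _ : (Σ b, W0 b), Fin 3 × Fin 3) := by
  obtain ⟨x⟩ := (inferInstance : Nonempty (W0 true))
  exact ⟨⟨⟨true, x⟩, (0, 0)⟩⟩

theorem good_X : ∃ K F A : ℕ, Good X K F A :=
  ⟨_, _, _, good_const nonE good_R3 (good_const ⟨(0, 0)⟩ good_D good_R3)⟩

/-- Connectedness when one connected graph is substituted for all vertices. -/
theorem conn_const {V W : Type} (hne : Nonempty W) {G : SimpleGraph V} {H : SimpleGraph W}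
    (hG : G.Connected) (hiso : ∀ a, ∃ b, G.Adj a b) : (Sub G fun _ => H).Connected := by
  have : ∀ _ : V, Nonempty W := fun _ => hne
  exact conn_sub hG hiso

theorem irred_R3 : IsIrreducible R3 := by
  intro u v huv h
  have key : ∀ u v : Fin 3 × Fin 3, u ≠ v → ¬ ∀ w, (R3.Adj u w ↔ R3.Adj v w) := by
    decide +kernel
  refine key u v huv fun w => ?_
  rw [← mem_neighborSet, h, mem_neighborSet]

theorem irred_R3c : IsIrreducible R3ᶜ := by
  intro u v huv h
  have key : ∀ u v : Fin 3 × Fin 3, u ≠ v → ¬ ∀ w, (R3ᶜ.Adj u w ↔ R3ᶜ.Adj v w) := by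
    decide +kernel
  refine key u v huv fun w => ?_
  rw [← mem_neighborSet, h, mem_neighborSet]

theorem noIso_R3 : ∀ u, ∃ v, R3.Adj u v := by decide +kernel

theorem noIso_R3c : ∀ u, ∃ v, R3ᶜ.Adj u v := by decide +kernel

theorem connected_of {V : Type} [Nonempty V] (G : SimpleGraph V)
    (h : ∀ u v, u = v ∨ G.Adj u v ∨ ∃ w, G.Adj u w ∧ G.Adj w v) : G.Connected := by
  rw [connected_iff]
  refine ⟨fun u v => ?_, inferInstance⟩
  rcases h u v with rfl | h | ⟨w, h1, h2⟩
  · exact Reachable.refl _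
  · exact h.reachable
  · exact h1.reachable.trans h2.reachable

theorem conn_R3 : R3.Connected := connected_of R3 (by decide +kernel)

theorem conn_R3c : R3ᶜ.Connected := connected_of R3ᶜ (by decide +kernel)

theorem compl_E : Eᶜ = Sub Dᶜ fun _ => R3ᶜ := compl_sub

theorem compl_X : Xᶜ = Sub R3ᶜ fun _ => Eᶜ := compl_sub

theorem irred_X : IsIrreducible X :=
  irred_sub (fun _ => irred_sub (fun _ => irred_R3) fun _ => noIso_R3)
    fun _ => noIso_sub fun _ => noIso_R3

theorem irred_Xc : IsIrreducible Xᶜ := by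
  rw [compl_X, compl_E]
  exact irred_sub (fun _ => irred_sub (fun _ => irred_R3c) fun _ => noIso_R3c)
    fun _ => noIso_sub fun _ => noIso_R3c

theorem conn_X : X.Connected := conn_const nonE conn_R3 noIso_R3

theorem conn_Xc : Xᶜ.Connected := by
  rw [compl_X]
  exact conn_const nonE conn_R3c noIso_R3c

/-! ### The invariant -/

/-- Some other vertex not adjacent to `u` misses exactly four neighbours of `u`. -/
def Inv {V : Type} (G : SimpleGraph V) (u : V) : Prop :=
  ∃ w, w ≠ u ∧ ¬ G.Adj u w ∧ {x | G.Adj u x ∧ ¬ G.Adj w x}.ncard = 4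

theorem inv_iso {V : Type} {G : SimpleGraph V} (e : G ≃g G) {u : V} (h : Inv G u) :
    Inv G (e u) := by
  obtain ⟨w, h1, h2, h3⟩ := h
  refine ⟨e w, fun h => h1 (e.injective h), fun h => h2 (e.map_adj_iff.1 h), ?_⟩
  have h4 := Set.ncard_image_of_injective {x | G.Adj u x ∧ ¬ G.Adj w x} e.injective
  rw [← h3, ← h4]
  congr 1
  symm
  ext x
  constructor
  · rintro ⟨y, ⟨hy1, hy2⟩, rfl⟩
    exact ⟨e.map_adj_iff.2 hy1, fun h => hy2 (e.map_adj_iff.1 h)⟩
  · rintro ⟨hx1, hx2⟩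
    refine ⟨e.symm x, ⟨?_, fun h => hx2 ?_⟩, e.apply_symm_apply x⟩
    · rw [← e.map_adj_iff, e.apply_symm_apply]
      exact hx1
    · rw [← e.map_adj_iff, e.apply_symm_apply] at h
      exact h

section inv

variable {V U W : Type} {R : SimpleGraph V} {Q : SimpleGraph U} {T : SimpleGraph W}

theorem adj_const {p q : Σ _ : V, W} :
    (Sub R fun _ => T).Adj p q ↔ R.Adj p.1 q.1 ∨ (p.1 = q.1 ∧ T.Adj p.2 q.2) := by
  rcases p with ⟨a, x⟩
  rcases q with ⟨b, y⟩
  by_cases hab : a = b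
  · subst hab
    rw [adj_same]
    simp
  · rw [adj_ne hab]
    simp [hab]

theorem adj_two {b b' : V} {d d' : U} {x x' : W} :
    (Sub R fun _ => Sub Q fun _ => T).Adj ⟨b, ⟨d, x⟩⟩ ⟨b', ⟨d', x'⟩⟩ ↔
      R.Adj b b' ∨ (b = b' ∧ (Q.Adj d d' ∨ (d = d' ∧ T.Adj x x'))) := by
  rw [adj_const, adj_const]

theorem inv_of_twin {b : V} {d d' : U} {x : W} (hd : d' ≠ d)
    (ht : ∀ e, Q.Adj d e ↔ Q.Adj d' e) (hT : {y | T.Adj x y}.ncard = 4) :
    Inv (Sub R fun _ => Sub Q fun _ => T) ⟨b, ⟨d, x⟩⟩ := by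
  have hQ : ¬ Q.Adj d d' := by
    rw [ht]; exact Q.loopless.irrefl _
  refine ⟨⟨b, ⟨d', x⟩⟩, ?_, ?_, ?_⟩
  · intro h
    have h1 := eq_of_heq (Sigma.mk.inj h).2
    exact hd (congrArg Sigma.fst h1)
  · rw [adj_two]
    rintro (h | ⟨-, h | ⟨h, -⟩⟩)
    · exact R.loopless.irrefl _ h
    · exact hQ h
    · exact hd h.symm
  · have hset : {p | (Sub R fun _ => Sub Q fun _ => T).Adj ⟨b, ⟨d, x⟩⟩ p ∧
        ¬ (Sub R fun _ => Sub Q fun _ => T).Adj ⟨b, ⟨d', x⟩⟩ p} =
        (fun y : W => (⟨b, ⟨d, y⟩⟩ : Σ _ : V, Σ _ : U, W)) '' {y | T.Adj x y} := by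
      ext ⟨c, e, y⟩
      constructor
      · rintro ⟨h1, h2⟩
        rw [adj_two] at h1 h2
        push Not at h2
        rcases h1 with h1 | ⟨rfl, h1 | ⟨rfl, h1⟩⟩
        · exact absurd h1 h2.1
        · exact absurd ((ht e).1 h1) (h2.2 rfl).1
        · exact ⟨y, h1, rfl⟩
      · rintro ⟨z, hz, h⟩
        have e1 : b = c := congrArg Sigma.fst h
        subst e1
        have h' := eq_of_heq (Sigma.mk.inj h).2
        have e2 : d = e := congrArg Sigma.fst h'
        subst e2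
        have e3 := eq_of_heq (Sigma.mk.inj h').2
        subst e3
        constructor
        · rw [adj_two]
          exact Or.inr ⟨rfl, Or.inr ⟨rfl, hz⟩⟩
        · rw [adj_two]
          rintro (h | ⟨-, h | ⟨h, -⟩⟩)
          · exact R.loopless.irrefl _ h
          · exact hQ h.symm
          · exact hd h
    rw [hset, Set.ncard_image_of_injective, hT]
    intro y z h
    have h1 := eq_of_heq (Sigma.mk.inj h).2
    exact eq_of_heq (Sigma.mk.inj h1).2

theorem not_inv_of [Finite V] [Finite U] [Finite W] {b : V} {d : U} {x : W}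
    (hR : ∀ b', b' ≠ b → ¬ R.Adj b b' → ∃ c, R.Adj b c ∧ ¬ R.Adj b' c)
    (hQ : ∀ d', d' ≠ d → ¬ Q.Adj d d' → ∃ c, Q.Adj d c ∧ ¬ Q.Adj d' c)
    (hT : ∀ x', x' ≠ x → ¬ T.Adj x x' → {y | T.Adj x y ∧ ¬ T.Adj x' y}.ncard ≠ 4)
    (hW : 4 < Nat.card W) (d₀ : U) :
    ¬ Inv (Sub R fun _ => Sub Q fun _ => T) ⟨b, ⟨d, x⟩⟩ := by
  rintro ⟨⟨b', d', x'⟩, h1, h2, h3⟩
  rw [adj_two] at h2
  push Not at h2
  obtain ⟨h4, h5⟩ := h2
  by_cases hb : b' = b
  · subst hb
    obtain ⟨h5, h6⟩ := h5 rfl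
    by_cases hd : d' = d
    · subst hd
      have h7 := h6 rfl
      have hx : x' ≠ x := by
        rintro rfl
        exact h1 rfl
      refine hT x' hx h7 ?_
      rw [← h3]
      have hset : {p | (Sub R fun _ => Sub Q fun _ => T).Adj ⟨b', ⟨d', x⟩⟩ p ∧
          ¬ (Sub R fun _ => Sub Q fun _ => T).Adj ⟨b', ⟨d', x'⟩⟩ p} =
          (fun y : W => (⟨b', ⟨d', y⟩⟩ : Σ _ : V, Σ _ : U, W)) ''
            {y | T.Adj x y ∧ ¬ T.Adj x' y} := by
        ext ⟨c, e, y⟩
        constructor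
        · rintro ⟨h8, h9⟩
          rw [adj_two] at h8 h9
          push Not at h9
          rcases h8 with h8 | ⟨rfl, h8 | ⟨rfl, h8⟩⟩
          · exact absurd h8 h9.1
          · exact absurd h8 (h9.2 rfl).1
          · exact ⟨y, ⟨h8, (h9.2 rfl).2 rfl⟩, rfl⟩
        · rintro ⟨z, ⟨hz1, hz2⟩, h⟩
          have e1 : b' = c := congrArg Sigma.fst h
          subst e1
          have h' := eq_of_heq (Sigma.mk.inj h).2
          have e2 : d' = e := congrArg Sigma.fst h'
          subst e2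
          have e3 := eq_of_heq (Sigma.mk.inj h').2
          subst e3
          constructor
          · rw [adj_two]
            exact Or.inr ⟨rfl, Or.inr ⟨rfl, hz1⟩⟩
          · rw [adj_two]
            rintro (h | ⟨-, h | ⟨-, h⟩⟩)
            · exact R.loopless.irrefl _ h
            · exact Q.loopless.irrefl _ h
            · exact hz2 h
      rw [hset, Set.ncard_image_of_injective]
      intro y z h
      have h1 := eq_of_heq (Sigma.mk.inj h).2
      exact eq_of_heq (Sigma.mk.inj h1).2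
    · obtain ⟨c, hc1, hc2⟩ := hQ d' hd h5
      have hcd : c ≠ d' := by
        rintro rfl
        exact h5 hc1
      have hsub : (fun y : W => (⟨b', ⟨c, y⟩⟩ : Σ _ : V, Σ _ : U, W)) '' Set.univ ⊆
          {p | (Sub R fun _ => Sub Q fun _ => T).Adj ⟨b', ⟨d, x⟩⟩ p ∧
            ¬ (Sub R fun _ => Sub Q fun _ => T).Adj ⟨b', ⟨d', x'⟩⟩ p} := by
        rintro _ ⟨y, -, rfl⟩
        refine ⟨adj_two.2 (Or.inr ⟨rfl, Or.inl hc1⟩), ?_⟩
        rw [adj_two]
        rintro (h | ⟨-, h | ⟨h, -⟩⟩)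
        · exact R.loopless.irrefl _ h
        · exact hc2 h
        · exact hcd h.symm
      have h8 := Set.ncard_le_ncard hsub (Set.toFinite _)
      rw [Set.ncard_image_of_injective, Set.ncard_univ, h3] at h8
      · omega
      · intro y z h
        have h1 := eq_of_heq (Sigma.mk.inj h).2
        exact eq_of_heq (Sigma.mk.inj h1).2
  · obtain ⟨c, hc1, hc2⟩ := hR b' hb h4
    have hcb : c ≠ b' := by
      rintro rfl
      exact h4 hc1
    have hsub : (fun y : W => (⟨c, ⟨d₀, y⟩⟩ : Σ _ : V, Σ _ : U, W)) '' Set.univ ⊆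
        {p | (Sub R fun _ => Sub Q fun _ => T).Adj ⟨b, ⟨d, x⟩⟩ p ∧
          ¬ (Sub R fun _ => Sub Q fun _ => T).Adj ⟨b', ⟨d', x'⟩⟩ p} := by
      rintro _ ⟨y, -, rfl⟩
      refine ⟨adj_two.2 (Or.inl hc1), ?_⟩
      rw [adj_two]
      rintro (h | ⟨h, -⟩)
      · exact hc2 h
      · exact hcb h.symm
    have h8 := Set.ncard_le_ncard hsub (Set.toFinite _)
    rw [Set.ncard_image_of_injective, Set.ncard_univ, h3] at h8
    · omega
    · intro y z h
      have h1 := eq_of_heq (Sigma.mk.inj h).2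
      exact eq_of_heq (Sigma.mk.inj h1).2

end inv

/-- Two vertices of the part `K2` and two vertices of the part `R3`. -/
def p0 : W0 false := ((0, 0) : Fin 3 × Fin 2)

/-- The twin of `p0`. -/
def p1 : W0 false := ((0, 1) : Fin 3 × Fin 2)

/-- A vertex of the part `R3`. -/
def q0 : W0 true := ((0, 0) : Fin 3 × Fin 3)

/-- A neighbour of `q0`. -/
def q1 : W0 true := ((0, 1) : Fin 3 × Fin 3)

theorem inv_u0 : Inv X ⟨(0, 0), ⟨⟨false, p0⟩, (0, 0)⟩⟩ := by
  refine inv_of_twin (d' := ⟨false, p1⟩) ?_ ?_ (good_R3.deg (0, 0))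
  · intro h
    have h1 : p1 = p0 := eq_of_heq (Sigma.mk.inj h).2
    have h2 : ((0, 1) : Fin 3 × Fin 2) ≠ (0, 0) := by decide
    exact h2 h1
  · rintro ⟨_ | _, x⟩
    · exact (adj_same (G := (⊥ : SimpleGraph Bool)) (H := H0) (a := false)).trans
        (adj_same (G := (⊥ : SimpleGraph Bool)) (H := H0) (a := false)).symm
    · exact (adj_ne (G := (⊥ : SimpleGraph Bool)) (H := H0) (a := false) (b := true)
        (by decide)).trans
        (adj_ne (G := (⊥ : SimpleGraph Bool)) (H := H0) (a := false) (b := true)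
        (by decide)).symm

theorem not_inv_v0 : ¬ Inv X ⟨(0, 0), ⟨⟨true, q0⟩, (0, 0)⟩⟩ := by
  refine not_inv_of (R := R3) (Q := D) (T := R3) ?_ ?_ ?_ ?_ ⟨true, q0⟩
  · decide +kernel
  · rintro ⟨_ | _, x⟩ h1 h2
    · refine ⟨⟨true, q1⟩, ?_, ?_⟩
      · refine (adj_same (G := (⊥ : SimpleGraph Bool)) (H := H0) (a := true)).2 ?_
        show R3.Adj (0, 0) (0, 1)
        decide
      · intro h
        exact (adj_ne (G := (⊥ : SimpleGraph Bool)) (H := H0) (a := false) (b := true)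
          (by decide)).1 h
    · have key : ∀ x : Fin 3 × Fin 3, x ≠ (0, 0) → ¬ R3.Adj (0, 0) x →
          ∃ y, R3.Adj (0, 0) y ∧ ¬ R3.Adj x y := by decide +kernel
      obtain ⟨y, hy1, hy2⟩ := key x (fun h => h1 (by
        show (⟨true, x⟩ : Σ b, W0 b) = ⟨true, q0⟩
        have : x = q0 := h
        rw [this])) (fun h => h2
          ((adj_same (G := (⊥ : SimpleGraph Bool)) (H := H0) (a := true)).2 h))
      exact ⟨⟨true, y⟩, (adj_same (G := (⊥ : SimpleGraph Bool)) (H := H0) (a := true)).2 hy1,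
        fun h => hy2 ((adj_same (G := (⊥ : SimpleGraph Bool)) (H := H0) (a := true)).1 h)⟩
  · intro x' h1 h2
    have : {y | R3.Adj (0, 0) y ∧ ¬ R3.Adj x' y} =
        ((Finset.univ.filter fun y => R3.Adj (0, 0) y ∧ ¬ R3.Adj x' y : Finset _) :
          Set (Fin 3 × Fin 3)) := by
      ext y; simp
    rw [this, Set.ncard_coe_finset]
    have key : ∀ x : Fin 3 × Fin 3, x ≠ (0, 0) → ¬ R3.Adj (0, 0) x →
        (Finset.univ.filter fun y => R3.Adj (0, 0) y ∧ ¬ R3.Adj x y).card ≠ 4 := by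
      decide +kernel
    exact key x' h1 h2
  · simp

/-- There is a finite regular CIS graph `G` such that `G` and its complement are connected,
well-covered and irreducible, and `G` is not vertex-transitive. -/
theorem result : ∃ (V : Type) (_ : Finite V) (G : SimpleGraph V),
    IsRegular G ∧ IsCIS G ∧ G.Connected ∧ Gᶜ.Connected ∧ WellCovered G ∧ WellCovered Gᶜ ∧
    IsIrreducible G ∧ IsIrreducible Gᶜ ∧ ¬ VertexTransitive G := by
  obtain ⟨K, F, A, h⟩ := good_X
  have hst : ∀ S : Set _, Maximal X.IsIndepSet S ↔ Maximal Xᶜ.IsClique S := by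
    intro S
    have : Xᶜ.IsClique = X.IsIndepSet := funext fun s => propext (isClique_compl X)
    rw [this]
  have hst' : ∀ S : Set _, Maximal Xᶜ.IsIndepSet S ↔ Maximal X.IsClique S := by
    intro S
    have : Xᶜ.IsIndepSet = X.IsClique := funext fun s => propext (isIndepSet_compl X)
    rw [this]
  refine ⟨_, inferInstance, X, ⟨K, h.deg⟩, ?_, conn_X, conn_Xc, ?_, ?_, irred_X, irred_Xc, ?_⟩
  · intro C S hC hS
    exact h.cis C S hC ((hst S).1 hS)
  · intro S T hS hT
    rw [h.st S ((hst S).1 hS), h.st T ((hst T).1 hT)]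
  · intro S T hS hT
    rw [h.cl S ((hst' S).1 hS), h.cl T ((hst' T).1 hT)]
  · intro hvt
    obtain ⟨e, he⟩ := hvt ⟨(0, 0), ⟨⟨false, p0⟩, (0, 0)⟩⟩ ⟨(0, 0), ⟨⟨true, q0⟩, (0, 0)⟩⟩
    exact not_inv_v0 (he ▸ inv_iso e inv_u0)

end Pool.Agent.Results.MP_509871_co.NotTransitive
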